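import Pool.Agent.H70.RK.T2
import Pool.Agent.H97.RC.ESY

/-!
# Module ESY of nbk_modules
-/

set_option autoImplicit false

namespace Pool.Agent.H77.RK

open Filter Pool.Agent.H6.NB Pool.Agent.H70.RK
open Pool.Agent.H97.RC (cost ofFn_append_inj avg_bounds)

open Classical in
/-- the functions of the combined oracle -/
noncomputable def comb {n M l : ℕ} (e : Fin M → Fin l → Bool)
    (g : Fin M → List Bool → ((Fin n → Bool) → Bool) → Bool) (u : List Bool) :
    ((Fin n → Bool) → Bool) → Bool :=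
  if h : ∃ x : Fin M × List Bool, u = List.ofFn (e x.1) ++ x.2 then g h.choose.1 h.choose.2
  else fun _ => false

theorem comb_eq {n M l : ℕ} {e : Fin M → Fin l → Bool} (he : Function.Injective e)
    (g : Fin M → List Bool → ((Fin n → Bool) → Bool) → Bool) (i : Fin M) (w : List Bool) :
    comb e g (List.ofFn (e i) ++ w) = g i w := by
  have h1 : ∃ x : Fin M × List Bool, List.ofFn (e i) ++ w = List.ofFn (e x.1) ++ x.2 :=
    ⟨(i, w), rfl⟩
  unfold comb
  rw [dif_pos h1]
  have h2 := ofFn_append_inj h1.choose_spec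
  rw [← he h2.1, ← h2.2]

theorem comb_or {n M l : ℕ} (e : Fin M → Fin l → Bool)
    (g : Fin M → List Bool → ((Fin n → Bool) → Bool) → Bool) (u : List Bool) :
    (∃ i w, comb e g u = g i w) ∨ comb e g u = fun _ => false := by
  unfold comb
  by_cases h : ∃ x : Fin M × List Bool, u = List.ofFn (e x.1) ++ x.2
  · rw [dif_pos h]
    exact Or.inl ⟨_, _, rfl⟩
  · rw [dif_neg h]
    exact Or.inr rfl

theorem exists_emb (n : ℕ) : ∃ e : Fin (2 ^ n + 1) → Fin (n + 1) → Bool,
    Function.Injective e := by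
  have hcard : Fintype.card (Fin (2 ^ n + 1)) ≤ Fintype.card (Fin (n + 1) → Bool) := by
    rw [Fintype.card_fun, Fintype.card_bool, Fintype.card_fin, Fintype.card_fin, pow_succ]
    have : 1 ≤ 2 ^ n := Nat.one_le_two_pow
    omega
  obtain ⟨e⟩ := Function.Embedding.nonempty_of_card_le hcard
  exact ⟨e, e.injective⟩

/-- ESY -/
theorem pf_ESY (hLST : Pool.Agent.H70.RK.T_LST) (hEVO : Pool.Agent.H70.RK.T_EVO)
    (hGTE : Pool.Agent.H70.RK.T_GTE) (hADM : Pool.Agent.H70.RK.T_ADM)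
    (hSIM : Pool.Agent.H70.RC.T_SIM) (hLOC : Pool.Agent.H70.RC.T_LOC) :
    Pool.Agent.H70.RK.T_ESY := by
  classical
  intro k V f Q c hk hQ
  obtain ⟨G, t, hG⟩ := hGTE k V hk
  obtain ⟨C0, hE⟩ := hEVO k V G t hk hG c
  refine ⟨c + C0 + 3, ?_⟩
  filter_upwards [hLST k V G t hk hG c, eventually_ge_atTop 4] with n hn1 hn4
  intro N hN D hR
  obtain ⟨l, hl1, hl2⟩ := hn1 N hN D
  choose g hg1 hg2 using fun i => hE n N hn4 hN D (l i)
  obtain ⟨-, hc2, hc3⟩ := cost n c C0 (by omega)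
  set m := n ^ (c + C0 + 3) + (c + C0 + 3) with hm
  obtain ⟨e, he⟩ := exists_emb n
  have hM : 1 ≤ 2 ^ n + 1 := Nat.le_add_left 1 (2 ^ n)
  obtain ⟨Q', hQ1, hQ2, hQ3⟩ := hSIM (Q n) (2 ^ n + 1) (fun i w => List.ofFn (e i) ++ w) hM
  have hNc : n ^ c + c ≤ N := by
    rw [hN]
    have : n ^ c ≤ n ^ (c + 1) := Nat.pow_le_pow_right (by omega) (by omega)
    omega
  refine ⟨Q', comb e g, ?_, ?_, ?_, ?_⟩
  · rw [hQ1]
    have := (hQ n).1
    omega
  · refine hQ2 (n ^ c + c) m (hQ n).2 fun i w hw => ?_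
    rw [List.length_append, List.length_ofFn]
    omega
  · intro u
    rcases comb_or e g u with ⟨i, w, h⟩ | h
    · rw [h]
      exact hADM _ _ _ _ _ _ _ _ _ hc2 le_rfl hc2 (by omega) (hg1 i w)
    · rw [h]
      exact Adp.pure _ _
  · intro X
    have hx : ∀ i, GoodS V G D X (l i) → ((Q n).prob fun w =>
        comb e g (List.ofFn (e i) ++ w) X) = (Q n).prob (orc V (ins n N D X (l i))) := by
      intro i hi
      refine (hLOC (Q n)).2 (n ^ c + c) _ _ (hQ n).2 fun w hw => ?_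
      rw [comb_eq he, hg2 i X hi w (hw.trans hNc)]
    have hA := avg_bounds hM (fun i => GoodS V G D X (l i)) (fun i => (Q n).prob fun w =>
        comb e g (List.ofFn (e i) ++ w) X) (fun i => (hLOC (Q n)).1 _) (hl2 X)
    rw [hQ3]
    constructor
    · intro hf
      refine hA.1 fun i hi => ?_
      rw [hx i hi]
      exact (hR X (l i) (hl1 i)).1 hf
    · intro hf
      refine hA.2 fun i hi => ?_
      rw [hx i hi]
      exact (hR X (l i) (hl1 i)).2 hf

end Pool.Agent.H77.RK
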