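import Pool.Agent.H92.RK.Targets

open MeasureTheory Set
open Pool.Agent.H92.RK

namespace Pool.Agent.H77.RK

private lemma quad_pos (X u : ℝ) : 0 ≤ 27 / 100 * u ^ 2 + X ^ 2 - X * u := by
  nlinarith [sq_nonneg (27 / 50 * u - X), sq_nonneg X, sq_nonneg u]

private lemma big_t (X s : ℝ) (hX : 5 / 4 ≤ X) (hs : 0 ≤ s) :
    X * s ^ 2 ≤ (X - 1) * (27 / 100 * ((X + s) ^ 4) ^ 2 + X ^ 2 - X * (X + s) ^ 4) := by
  have hX0 : 0 < X := by linarith
  have hX1 : 0 < X - 1 := by linarith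
  have hX3 : (125 / 64 : ℝ) ≤ X ^ 3 := by
    have := pow_le_pow_left₀ (by norm_num : (0 : ℝ) ≤ 5 / 4) hX 3
    norm_num at this
    linarith
  have hX5 : (3 : ℝ) ≤ X ^ 5 := by
    have := pow_le_pow_left₀ (by norm_num : (0 : ℝ) ≤ 5 / 4) hX 5
    norm_num at this
    linarith
  set u1 : ℝ := X ^ 4 + 4 * X ^ 3 * s with hu1
  have hu : u1 ≤ (X + s) ^ 4 := by
    have : (X + s) ^ 4 = X ^ 4 + 4 * X ^ 3 * s + (6 * X ^ 2 * s ^ 2 + 4 * X * s ^ 3 + s ^ 4) := by
      ring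
    rw [this]
    have h2 : 0 ≤ 6 * X ^ 2 * s ^ 2 + 4 * X * s ^ 3 + s ^ 4 := by positivity
    linarith
  have hmono : 27 / 100 * u1 ^ 2 + X ^ 2 - X * u1 ≤
      27 / 100 * ((X + s) ^ 4) ^ 2 + X ^ 2 - X * (X + s) ^ 4 := by
    have h1 : X ^ 4 ≤ u1 := by
      have : 0 ≤ 4 * X ^ 3 * s := by positivity
      linarith
    have h2 : 0 ≤ 27 / 100 * ((X + s) ^ 4 + u1) - X := by
      have h3 : X * (125 / 64) ≤ X ^ 4 := by
        have : X ^ 4 = X * X ^ 3 := by ring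
        rw [this]
        exact mul_le_mul_of_nonneg_left hX3 hX0.le
      nlinarith
    have h4 : 0 ≤ ((X + s) ^ 4 - u1) * (27 / 100 * ((X + s) ^ 4 + u1) - X) :=
      mul_nonneg (by linarith) h2
    nlinarith [h4]
  have hval : 27 / 100 * u1 ^ 2 + X ^ 2 - X * u1 =
      X ^ 2 * (27 / 100 * (X ^ 3) ^ 2 - X ^ 3 + 1) + s * X ^ 4 * (54 / 25 * X ^ 3 - 4) +
        108 / 25 * X ^ 6 * s ^ 2 := by
    rw [hu1]
    ring
  have hc0 : 0 ≤ X ^ 2 * (27 / 100 * (X ^ 3) ^ 2 - X ^ 3 + 1) := by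
    apply mul_nonneg (by positivity)
    nlinarith [sq_nonneg (X ^ 3 - 50 / 27)]
  have hc1 : 0 ≤ s * X ^ 4 * (54 / 25 * X ^ 3 - 4) := by
    apply mul_nonneg (by positivity)
    linarith
  have hlow : 108 / 25 * X ^ 6 * s ^ 2 ≤
      27 / 100 * ((X + s) ^ 4) ^ 2 + X ^ 2 - X * (X + s) ^ 4 := by
    linarith
  have h5 : X * s ^ 2 ≤ (X - 1) * (108 / 25 * X ^ 6 * s ^ 2) := by
    have h6 : X ≤ (X - 1) * (108 / 25 * X ^ 6) := by
      have e : (X - 1) * (108 / 25 * X ^ 6) = X * ((X - 1) * (108 / 25) * X ^ 5) := by ring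
      rw [e]
      have h7 : 1 ≤ (X - 1) * (108 / 25) * X ^ 5 := by nlinarith
      nlinarith
    have := mul_le_mul_of_nonneg_right h6 (sq_nonneg s)
    nlinarith [this]
  exact h5.trans (mul_le_mul_of_nonneg_left hlow hX1.le)

private lemma form (X t n m : ℝ) (hX : 5 / 4 ≤ X) (hn : 0 ≤ n) (hm : 0 ≤ m) :
    t ^ 4 * n ^ 2 + 2 * m * (t * n) + m ^ 2 ≤
      27 / (100 * X) * t ^ 8 * n ^ 2 + X * (n + m) ^ 2 := by
  have hX0 : 0 < X := by linarith
  have hX1 : 0 < X - 1 := by linarith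
  set A : ℝ := 27 / (100 * X) * t ^ 8 + X - t ^ 4 with hA
  have hAX : X * A = 27 / 100 * (t ^ 4) ^ 2 + X ^ 2 - X * t ^ 4 := by
    rw [hA]
    field_simp
  have hA0 : 0 ≤ A := by
    have := quad_pos X (t ^ 4)
    rw [← hAX] at this
    exact nonneg_of_mul_nonneg_right this hX0
  have goal : 0 ≤ A * n ^ 2 + 2 * n * m * (X - t) + (X - 1) * m ^ 2 := by
    rcases le_or_gt t X with h | h
    · have h1 : 0 ≤ A * n ^ 2 := by positivity
      have h2 : 0 ≤ 2 * n * m * (X - t) := mul_nonneg (by positivity) (by linarith)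
      have h3 : 0 ≤ (X - 1) * m ^ 2 := by positivity
      linarith
    · have hb := big_t X (t - X) hX (by linarith)
      have e1 : X + (t - X) = t := by ring
      rw [e1, ← hAX] at hb
      have hb2 : (t - X) ^ 2 ≤ (X - 1) * A := by
        have : X * (t - X) ^ 2 ≤ X * ((X - 1) * A) := by nlinarith [hb]
        exact le_of_mul_le_mul_left this hX0
      have h4 : 0 ≤ (X - 1) * (A * n ^ 2 + 2 * n * m * (X - t) + (X - 1) * m ^ 2) := by
        have h5 : (X - 1) * (A * n ^ 2 + 2 * n * m * (X - t) + (X - 1) * m ^ 2) =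
            ((X - 1) * A - (t - X) ^ 2) * n ^ 2 + ((t - X) * n - (X - 1) * m) ^ 2 := by ring
        rw [h5]
        have h6 : 0 ≤ ((X - 1) * A - (t - X) ^ 2) * n ^ 2 := mul_nonneg (by linarith) (sq_nonneg n)
        have h7 := sq_nonneg ((t - X) * n - (X - 1) * m)
        linarith
      exact nonneg_of_mul_nonneg_right h4 hX1
  have e : 27 / (100 * X) * t ^ 8 * n ^ 2 + X * (n + m) ^ 2 -
      (t ^ 4 * n ^ 2 + 2 * m * (t * n) + m ^ 2) =
      A * n ^ 2 + 2 * n * m * (X - t) + (X - 1) * m ^ 2 := by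
    rw [hA]
    ring
  linarith

theorem pf_CIA : T_CIA := by
  intro X e n q a m hX he hn hq ha hm h1 h2
  have hX0 : 0 < X := by linarith
  rcases hn.eq_or_lt with hn0 | hn0
  · subst hn0
    have hq4 : q ^ 4 ≤ 0 := by nlinarith
    have hq0 : q = 0 := by
      have : q ^ 4 = 0 := le_antisymm hq4 (by positivity)
      exact pow_eq_zero_iff (by norm_num) |>.1 this
    have ha0 : a = 0 := by
      have : a ^ 2 = 0 := le_antisymm (by linarith) (sq_nonneg a)
      exact pow_eq_zero_iff (by norm_num) |>.1 this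
    subst hq0
    subst ha0
    have : 0 ≤ 1 / (25 * X) * e := by positivity
    nlinarith [sq_nonneg m]
  · obtain ⟨t, ht, htq⟩ : ∃ t : ℝ, 0 ≤ t ∧ q = t ^ 2 * n := by
      refine ⟨Real.sqrt (q / n), Real.sqrt_nonneg _, ?_⟩
      rw [Real.sq_sqrt (by positivity)]
      field_simp
    subst htq
    have hat : a ≤ t * n := by
      have h8 : a ^ 2 ≤ (t * n) ^ 2 := by nlinarith
      exact abs_le_of_sq_le_sq' h8 (by positivity) |>.2
    have he2 : 27 / 4 * t ^ 8 * n ^ 2 ≤ e := by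
      have h3 : (27 / 4 * t ^ 8 * n ^ 2) * n ^ 2 ≤ e * n ^ 2 := by nlinarith [h1]
      exact le_of_mul_le_mul_right h3 (by positivity)
    have h4 := form X t n m hX hn0.le hm
    have h5 : 27 / (100 * X) * t ^ 8 * n ^ 2 ≤ 1 / (25 * X) * e := by
      have h6 : 27 / (100 * X) * t ^ 8 * n ^ 2 = 1 / (25 * X) * (27 / 4 * t ^ 8 * n ^ 2) := by
        field_simp
        ring
      rw [h6]
      exact mul_le_mul_of_nonneg_left he2 (by positivity)
    have h7 : 2 * m * a ≤ 2 * m * (t * n) := mul_le_mul_of_nonneg_left hat (by positivity)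
    nlinarith [h4, h5, h7]

end Pool.Agent.H77.RK
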