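import Pool.Agent.H92.RK.Targets

open MeasureTheory Set
open Pool.Agent.H92.RK

namespace Pool.Agent.H77.RK

theorem pf_CIH : T_CIH := by
  intro h hc h0
  set μ : Measure ℝ := volume.restrict (Ioc (0 : ℝ) 1) with hμ
  have hfin : IsFiniteMeasure μ := by
    refine ⟨?_⟩
    simp [hμ]
  have hcf : Continuous (fun x => h x ^ (1 / 2 : ℝ)) :=
    hc.rpow_const (fun x => Or.inr (by norm_num))
  obtain ⟨C, hC⟩ := (isCompact_Icc (a := (0 : ℝ)) (b := 1)).exists_bound_of_continuousOn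
    hcf.continuousOn
  have hmem : ∀ p : ENNReal, MemLp (fun x => h x ^ (1 / 2 : ℝ)) p μ := by
    intro p
    refine MemLp.of_bound hcf.aestronglyMeasurable C ?_
    rw [hμ, ae_restrict_iff' measurableSet_Ioc]
    exact Filter.Eventually.of_forall (fun x hx => hC x ⟨hx.1.le, hx.2⟩)
  have hnn : 0 ≤ᵐ[μ] (fun x => h x ^ (1 / 2 : ℝ)) :=
    Filter.Eventually.of_forall (fun x => Real.rpow_nonneg (h0 x) _)
  have hpq : (4 / 3 : ℝ).HolderConjugate 4 := by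
    rw [Real.holderConjugate_iff]
    norm_num
  have key := integral_mul_le_Lp_mul_Lq_of_nonneg hpq hnn hnn (hmem _) (hmem _)
  have e1 : ∀ x, h x ^ (1 / 2 : ℝ) * h x ^ (1 / 2 : ℝ) = h x := by
    intro x
    rw [← Real.rpow_add' (h0 x) (by norm_num)]
    norm_num
  have e2 : ∀ x, (h x ^ (1 / 2 : ℝ)) ^ (4 / 3 : ℝ) = h x ^ (2 / 3 : ℝ) := by
    intro x
    rw [← Real.rpow_mul (h0 x)]
    norm_num
  have e3 : ∀ x, (h x ^ (1 / 2 : ℝ)) ^ (4 : ℝ) = h x ^ 2 := by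
    intro x
    rw [← Real.rpow_mul (h0 x)]
    norm_num
  simp only [e1, e2, e3] at key
  rw [intervalIntegral.integral_of_le zero_le_one, intervalIntegral.integral_of_le zero_le_one,
    intervalIntegral.integral_of_le zero_le_one]
  have hA : 0 ≤ ∫ x in Ioc (0 : ℝ) 1, h x ^ (2 / 3 : ℝ) :=
    integral_nonneg (fun x => Real.rpow_nonneg (h0 x) _)
  have hB : 0 ≤ ∫ x in Ioc (0 : ℝ) 1, h x ^ 2 := integral_nonneg (fun x => sq_nonneg _)
  have hI : 0 ≤ ∫ x in Ioc (0 : ℝ) 1, h x := integral_nonneg (fun x => h0 x)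
  rw [← hμ] at hA hB hI ⊢
  calc (∫ x, h x ∂μ) ^ 2
      ≤ ((∫ x, h x ^ (2 / 3 : ℝ) ∂μ) ^ (1 / (4 / 3) : ℝ) * (∫ x, h x ^ 2 ∂μ) ^ (1 / 4 : ℝ)) ^ 2 :=
        pow_le_pow_left₀ hI key 2
    _ = (∫ x, h x ^ (2 / 3 : ℝ) ∂μ) ^ (3 / 2 : ℝ) * (∫ x, h x ^ 2 ∂μ) ^ (1 / 2 : ℝ) := by
        rw [mul_pow, ← Real.rpow_natCast, ← Real.rpow_natCast, ← Real.rpow_mul hA,
          ← Real.rpow_mul hB]
        norm_num

end Pool.Agent.H77.RK
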